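import Pool.Graph.R_pool_sql_team_seeded_5cf16337.K3h57.Slopes
import Pool.Agent.Helper16.AK.CertT5

/-!
# Sums-differences for the five slopes `0, 1/2, 1, 2, ∞` with exponent `19 / 11`

For every finite `A ⊂ ℤ × ℤ` the difference projection is bounded by
`(|π_0| |π_∞|) ^ (5 / 11) * (|π_{1/2}| |π_2|) ^ (5 / 22) * |π_1| ^ (4 / 11)`, hence by the
`19 / 11`-th power of the largest of the five projections.
-/

set_option autoImplicit false

namespace Pool.Agent.Results.MP_169869_co.FiveSlopes
open Pool.Agent.K3h57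

/-- The projection in direction `r`: the set of the values `x + r y`. -/
def proj (r : ℚ) (A : Finset (ℤ × ℤ)) : Finset ℚ :=
  A.image (fun z : ℤ × ℤ => (z.1 : ℚ) + r * (z.2 : ℚ))

/-- The projection in direction `∞`: the set of the values `y`. -/
def projInf (A : Finset (ℤ × ℤ)) : Finset ℚ := A.image (fun z : ℤ × ℤ => (z.2 : ℚ))

/-- The largest of the five projections. -/
noncomputable def top (A : Finset (ℤ × ℤ)) : ℝ :=
  max (max (max (proj 0 A).card (proj 1 A).card : ℝ) (max (proj 2 A).card (proj (1 / 2) A).card))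
    (projInf A).card

lemma card_scale {A : Finset (ℤ × ℤ)} {f : ℤ × ℤ → ℤ} {g : ℤ × ℤ → ℚ} (c : ℚ) (hc : c ≠ 0)
    (h : ∀ z, (f z : ℚ) = c * g z) : (A.image g).card = (A.image f).card := by
  have e : (A.image f).image (fun z : ℤ => (z : ℚ)) = (A.image g).image (fun z : ℚ => c * z) := by
    rw [Finset.image_image, Finset.image_image]
    exact Finset.image_congr fun z _ => h z
  rw [← Finset.card_image_of_injective (A.image g) (mul_right_injective₀ hc), ← e,
    Finset.card_image_of_injective _ Int.cast_injective]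

/-- **Theorem.** Sums-differences inequality for the slopes `0, 1/2, 1, 2, ∞`. -/
theorem result (A : Finset (ℤ × ℤ)) :
    ((proj (-1) A).card : ℝ) ≤
        (((proj 0 A).card : ℝ) * ((projInf A).card : ℝ)) ^ (5 / 11 : ℝ) *
          (((proj (1 / 2) A).card : ℝ) * ((proj 2 A).card : ℝ)) ^ (5 / 22 : ℝ) *
            ((proj 1 A).card : ℝ) ^ (4 / 11 : ℝ) ∧
      ((proj (-1) A).card : ℝ) ≤ top A ^ (19 / 11 : ℝ) := by
  have c0 : (proj (-1) A).card = (A.image (fun z => z.1 - z.2)).card :=
    card_scale 1 one_ne_zero fun z => by push_cast; ring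
  have c1 : (proj 0 A).card = (sl 1 1 A).card :=
    card_scale 1 one_ne_zero fun z => by push_cast; ring
  have c2 : (projInf A).card = (sl 1 0 A).card :=
    card_scale 1 one_ne_zero fun z => by push_cast; ring
  have c3 : (proj 1 A).card = (sl 2 1 A).card :=
    card_scale 1 one_ne_zero fun z => by push_cast; ring
  have c4 : (proj 2 A).card = (sl 3 1 A).card :=
    card_scale 1 one_ne_zero fun z => by push_cast; ring
  have c5 : (proj (1 / 2) A).card = (sl 3 2 A).card :=
    card_scale 2 two_ne_zero fun z => by push_cast; ring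
  rcases A.eq_empty_or_nonempty with hA | hA
  · subst hA
    have h0 : ((proj (-1) (∅ : Finset (ℤ × ℤ))).card : ℝ) = 0 := by simp [proj]
    rw [h0]
    have : (0 : ℝ) ≤ top ∅ := le_max_of_le_right (Nat.cast_nonneg _)
    constructor <;> positivity
  obtain ⟨B, b1, b2, b3⟩ := slopes_SS A hA
  have key := Pool.Agent.Helper16.AK.CertT5.final B
  unfold Pool.Agent.Helper16.AK.CertT5.vl Pool.Agent.Helper16.AK.CertT5.va
    Pool.Agent.Helper16.AK.CertT5.vb Pool.Agent.Helper16.AK.CertT5.vc at key
  have k1 := b3 3 1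
  have k2 := b3 2 1
  norm_num at k1 k2
  rw [b1, ← c0] at key
  rw [← c1, ← c2] at b2
  rw [← c4, ← c5] at k1
  rw [← c3] at k2
  have p0 : (0 : ℝ) < (proj (-1) A).card := by exact_mod_cast Finset.card_pos.2 (hA.image _)
  have p1 : (0 : ℝ) < (proj 0 A).card := by exact_mod_cast Finset.card_pos.2 (hA.image _)
  have p2 : (0 : ℝ) < (projInf A).card := by exact_mod_cast Finset.card_pos.2 (hA.image _)
  have p3 : (0 : ℝ) < (proj 1 A).card := by exact_mod_cast Finset.card_pos.2 (hA.image _)
  have p4 : (0 : ℝ) < (proj 2 A).card := by exact_mod_cast Finset.card_pos.2 (hA.image _)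
  have p5 : (0 : ℝ) < (proj (1 / 2) A).card := by exact_mod_cast Finset.card_pos.2 (hA.image _)
  have hlog : Real.log (proj (-1) A).card ≤
      5 / 11 * (Real.log (proj 0 A).card + Real.log (projInf A).card) +
        5 / 22 * (Real.log (proj (1 / 2) A).card + Real.log (proj 2 A).card) +
          4 / 11 * Real.log (proj 1 A).card := by
    linarith
  refine ⟨?_, ?_⟩
  · have q1 : (0 : ℝ) < (((proj 0 A).card : ℝ) * ((projInf A).card : ℝ)) ^ (5 / 11 : ℝ) :=
      Real.rpow_pos_of_pos (mul_pos p1 p2) _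
    have q2 : (0 : ℝ) < (((proj (1 / 2) A).card : ℝ) * ((proj 2 A).card : ℝ)) ^ (5 / 22 : ℝ) :=
      Real.rpow_pos_of_pos (mul_pos p5 p4) _
    have q3 : (0 : ℝ) < ((proj 1 A).card : ℝ) ^ (4 / 11 : ℝ) := Real.rpow_pos_of_pos p3 _
    rw [← Real.log_le_log_iff p0 (mul_pos (mul_pos q1 q2) q3), Real.log_mul (mul_pos q1 q2).ne'
      q3.ne', Real.log_mul q1.ne' q2.ne', Real.log_rpow (mul_pos p1 p2),
      Real.log_rpow (mul_pos p5 p4), Real.log_rpow p3, Real.log_mul p1.ne' p2.ne',
      Real.log_mul p5.ne' p4.ne']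
    exact hlog
  · have t1 : ((proj 0 A).card : ℝ) ≤ top A :=
      le_max_of_le_left (le_max_of_le_left (le_max_left _ _))
    have t2 : ((projInf A).card : ℝ) ≤ top A := le_max_right _ _
    have t3 : ((proj 1 A).card : ℝ) ≤ top A :=
      le_max_of_le_left (le_max_of_le_left (le_max_right _ _))
    have t4 : ((proj 2 A).card : ℝ) ≤ top A :=
      le_max_of_le_left (le_max_of_le_right (le_max_left _ _))
    have t5 : ((proj (1 / 2) A).card : ℝ) ≤ top A :=
      le_max_of_le_left (le_max_of_le_right (le_max_right _ _))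
    have pt : 0 < top A := p2.trans_le t2
    rw [← Real.log_le_log_iff p0 (Real.rpow_pos_of_pos pt _), Real.log_rpow pt]
    have l1 := Real.log_le_log p1 t1
    have l2 := Real.log_le_log p2 t2
    have l3 := Real.log_le_log p3 t3
    have l4 := Real.log_le_log p4 t4
    have l5 := Real.log_le_log p5 t5
    linarith

end Pool.Agent.Results.MP_169869_co.FiveSlopes
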