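import Pool.Agent.Helper20.GS.Rap

/-!
# The arithmetic Kakeya problem for structured sets of slopes

The projection in direction `r` is a multiple of `X + t D`, where `X = y`, `D = x - y` and
`t = 1 / (1 + r)` (`t = 0` for `r = ∞`) is the height of `r`.  Every piece below has a cost.  If the
heights of the slopes in a finite set `S` are covered by pieces of total cost `c`, then the slopes in
`S` give no exponent below `1 + 1 / (c - 1)`.  A geometric progression of any length costs at most `4`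
(a family of lines with a reversal of digits), a point costs `1`, a set with additive or
multiplicative structure has a cost of the size of the logarithm of its number of elements.
-/

set_option autoImplicit false

open Finset
open scoped Classical

namespace Pool.Agent.Results.MP_169869_co.GeometricSlopes
open Pool.Agent.Helper20.GS

/-- The function `x + r y` (`y` for `r = ∞`). -/
def val : Option ℚ → ℤ × ℤ → ℚ
  | none, z => (z.2 : ℚ)
  | some r, z => (z.1 : ℚ) + r * (z.2 : ℚ)

/-- The projection in direction `r`; `none` stands for `∞`. -/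
noncomputable def proj (r : Option ℚ) (A : Finset (ℤ × ℤ)) : Finset ℚ := A.image (val r)

/-- The height of a slope. -/
def height : Option ℚ → ℚ
  | none => 0
  | some r => 1 / (1 + r)

/-- The sets used in coverings. -/
inductive Piece
  | point (a : ℚ) : Piece
  | gp (a b g : ℚ) (n : ℕ) : Piece
  | add (a b : ℚ) (B : Finset ℚ) (K : ℝ) : Piece
  | mul (a b : ℚ) (B : Finset ℚ) (K : ℝ) : Piece
  | tr (a : ℚ) (B : Finset ℚ) (K : ℝ) : Piece

/-- The elements: `a`; the numbers `a ± b g ^ j` for all integers `j`; the numbers `a + b τ` such that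
the reflection `u ↦ τ - u` maps at least `|B| / K` elements `u` of `B` to other elements of `B`; the
same for `u ↦ 1 / (τ u)`; the numbers `a + 1 / τ` such that the translation `u ↦ u + τ` maps at least
`|B| / K` elements of `B` to elements of `B`. -/
def Piece.carrier : Piece → Set ℚ
  | .point a => {a}
  | .gp a b g _ => {t | ∃ j : ℤ, t = a + b * g ^ j ∨ t = a - b * g ^ j}
  | .add a b B K => {t | ∃ τ : ℚ, t = a + b * τ ∧
      (B.card : ℝ) ≤ K * (B.filter fun u => τ - u ∈ B ∧ τ - u ≠ u).card}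
  | .mul a b B K => {t | ∃ τ : ℚ, τ ≠ 0 ∧ t = a + b * τ ∧
      (B.card : ℝ) ≤ K * (B.filter fun u => u ≠ 0 ∧ (τ * u)⁻¹ ∈ B ∧ (τ * u)⁻¹ ≠ u).card}
  | .tr a B K => {t | ∃ τ : ℚ, τ ≠ 0 ∧ t = a + 1 / τ ∧
      (B.card : ℝ) ≤ K * (B.filter fun u => u + τ ∈ B).card}

/-- For a geometric progression with ratio `g = u / v` in lowest terms, `n` is an integer with
`2 ≤ n ≤ max (|u|, |v|)`. -/
def Piece.Ok : Piece → Prop
  | .point _ => True
  | .gp _ _ g n => 2 ≤ n ∧ n ≤ max g.num.natAbs g.den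
  | .add _ _ B K => 2 ≤ B.card ∧ 0 < K
  | .mul _ _ B K => 2 ≤ B.card ∧ 0 < K
  | .tr _ B K => 2 ≤ B.card ∧ 0 < K

/-- The costs: `1`, `2 n² log n / (n log n + 2 ∑_{m < n} m log m)`, `K log₂ |B|`, `K log₂ |B|`,
`2 K log₂ |B|`. -/
noncomputable def Piece.cost : Piece → ℝ
  | .point _ => 1
  | .gp _ _ _ n =>
    2 * Real.log n / ((n * Real.log n + 2 * ∑ m ∈ range n, m * Real.log m) / n ^ 2)
  | .add _ _ B K => K * (Real.log B.card / Real.log 2)
  | .mul _ _ B K => K * (Real.log B.card / Real.log 2)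
  | .tr _ B K => 2 * K * (Real.log B.card / Real.log 2)

lemma good_piece (P : Piece) (h : P.Ok) : Good P.carrier P.cost := by
  cases P with
  | point a => exact good_point a
  | gp a b g n => exact good_gp a b g h.1 h.2
  | add a b B K => exact good_add a b B h.1 h.2
  | mul a b B K => exact good_mul a b B h.1 h.2
  | tr a B K => exact good_tr a B h.1 h.2

lemma card_proj {A : Finset (ℚ × ℚ)} {q : ℚ} (hq : q ≠ 0)
    (h1 : ∀ z ∈ A, ((⌊q * z.1⌋ : ℤ) : ℚ) = q * z.1)
    (h2 : ∀ z ∈ A, ((⌊q * (z.1 + z.2)⌋ : ℤ) : ℚ) = q * (z.1 + z.2))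
    (r : Option ℚ) (hr : r ≠ some (-1)) :
    (proj r (A.image fun z => (⌊q * (z.1 + z.2)⌋, ⌊q * z.1⌋))).card =
      (A.image fun z => z.1 + height r * z.2).card := by
  obtain ⟨c, hc, key⟩ : ∃ c : ℚ, c ≠ 0 ∧ ∀ z ∈ A,
      val r (⌊q * (z.1 + z.2)⌋, ⌊q * z.1⌋) = c * (z.1 + height r * z.2) := by
    cases r with
    | none =>
      refine ⟨q, hq, fun z hz => ?_⟩
      simp only [val, height]
      rw [h1 z hz]
      ring
    | some r =>
      have hr' : 1 + r ≠ 0 := by
        intro h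
        apply hr
        rw [show r = -1 by linarith]
      refine ⟨q * (1 + r), mul_ne_zero hq hr', fun z hz => ?_⟩
      simp only [val, height]
      rw [h1 z hz, h2 z hz]
      field_simp
      ring
  have e : proj r (A.image fun z => (⌊q * (z.1 + z.2)⌋, ⌊q * z.1⌋)) =
      (A.image fun z => z.1 + height r * z.2).image (fun u => c * u) := by
    unfold proj
    rw [image_image, image_image]
    exact image_congr fun z hz => key z hz
  rw [e, card_image_of_injective _ (mul_right_injective₀ hc)]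

lemma card_diff {A : Finset (ℚ × ℚ)} {q : ℚ} (hq : q ≠ 0)
    (h1 : ∀ z ∈ A, ((⌊q * z.1⌋ : ℤ) : ℚ) = q * z.1)
    (h2 : ∀ z ∈ A, ((⌊q * (z.1 + z.2)⌋ : ℤ) : ℚ) = q * (z.1 + z.2)) :
    (proj (some (-1)) (A.image fun z => (⌊q * (z.1 + z.2)⌋, ⌊q * z.1⌋))).card =
      (A.image Prod.snd).card := by
  have e : proj (some (-1)) (A.image fun z => (⌊q * (z.1 + z.2)⌋, ⌊q * z.1⌋)) =
      (A.image Prod.snd).image (fun u => q * u) := by
    unfold proj
    rw [image_image, image_image]
    refine image_congr fun z hz => ?_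
    simp only [Function.comp, val]
    rw [h1 z hz, h2 z hz]
    ring
  rw [e, card_image_of_injective _ (mul_right_injective₀ hq)]

/-- From rational to integer points. -/
lemma to_int (A : Finset (ℚ × ℚ)) (hA : A.Nonempty) :
    ∃ B : Finset (ℤ × ℤ), B.Nonempty ∧
      (∀ r : Option ℚ, r ≠ some (-1) →
        (proj r B).card = (A.image fun z => z.1 + height r * z.2).card) ∧
      (proj (some (-1)) B).card = (A.image Prod.snd).card := by
  obtain ⟨b, hb⟩ := IsLocalization.exist_integer_multiples_of_finset (nonZeroDivisors ℤ)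
    (A.image Prod.fst ∪ A.image Prod.snd)
  have hq : ((b : ℤ) : ℚ) ≠ 0 := by
    exact_mod_cast nonZeroDivisors.ne_zero b.2
  have hz : ∀ a ∈ A.image Prod.fst ∪ A.image Prod.snd, ∃ m : ℤ, (m : ℚ) = ((b : ℤ) : ℚ) * a := by
    intro a ha
    obtain ⟨m, hm⟩ := hb a ha
    refine ⟨m, ?_⟩
    rw [Algebra.smul_def] at hm
    simpa using hm
  have h1 : ∀ z ∈ A, ((⌊((b : ℤ) : ℚ) * z.1⌋ : ℤ) : ℚ) = ((b : ℤ) : ℚ) * z.1 := by
    intro z hzA
    obtain ⟨m, hm⟩ := hz z.1 (mem_union_left _ (mem_image_of_mem _ hzA))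
    rw [← hm, Int.floor_intCast]
  have h2 : ∀ z ∈ A, ((⌊((b : ℤ) : ℚ) * (z.1 + z.2)⌋ : ℤ) : ℚ) = ((b : ℤ) : ℚ) * (z.1 + z.2) := by
    intro z hzA
    obtain ⟨m, hm⟩ := hz z.1 (mem_union_left _ (mem_image_of_mem _ hzA))
    obtain ⟨m', hm'⟩ := hz z.2 (mem_union_right _ (mem_image_of_mem _ hzA))
    rw [mul_add, ← hm, ← hm', ← Int.cast_add, Int.floor_intCast]
  exact ⟨_, hA.image _, fun r hr => card_proj hq h1 h2 r hr, card_diff hq h1 h2⟩

theorem main {ι : Type} [Fintype ι] (U : ι → Set ℚ) (c : ι → ℝ) (hU : ∀ i, Good (U i) (c i))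
    (S : Finset (Option ℚ)) (hS : some (-1) ∉ S) (hcov : ∀ r ∈ S, ∃ i, height r ∈ U i) (κ : ℝ)
    (hκ : 0 ≤ κ) (h : κ * (∑ i, c i - 1) < ∑ i, c i) (C : ℝ) :
    ∃ A : Finset (ℤ × ℤ), A.Nonempty ∧
      ∀ r ∈ S, C * ((proj r A).card : ℝ) ^ κ < (proj (some (-1)) A).card := by
  obtain ⟨G, hG⟩ := combine U c hU (S.image height) (fun t ht => by
      rw [mem_image] at ht
      obtain ⟨r, hr, rfl⟩ := ht
      exact hcov r hr) κ hκ h
  obtain ⟨A, hA, h1⟩ := G.expo (S.image height) κ hκ hG C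
  obtain ⟨B, hB, h2, h3⟩ := to_int A hA
  refine ⟨B, hB, fun r hr => ?_⟩
  have h4 := h1 (height r) (mem_image_of_mem _ hr)
  rw [h2 r (fun e => hS (e ▸ hr)), h3]
  exact h4

theorem cost_two (a b g : ℚ) : (Piece.gp a b g 2).cost = 4 := by
  have h2 : Real.log 2 ≠ 0 := (Real.log_pos (by norm_num)).ne'
  simp only [Piece.cost, Finset.sum_range_succ, Finset.sum_range_zero]
  norm_num

theorem cost_le (a b g : ℚ) (n : ℕ) (hn : 3 ≤ n) :
    (Piece.gp a b g n).cost ≤ 2 + 2 * Real.log 2 / (Real.log n - Real.log 2) := by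
  have h1 : Real.log n - Real.log 2 ≤ gam n := gam_ge (by omega)
  have h2 : Real.log 2 < Real.log n := Real.log_lt_log (by norm_num)
    (by exact_mod_cast (by omega : 2 < n))
  have h3 : 0 < Real.log 2 := Real.log_pos (by norm_num)
  have h4 : (Piece.gp a b g n).cost = 2 * Real.log n / gam n := rfl
  rw [h4]
  calc 2 * Real.log n / gam n ≤ 2 * Real.log n / (Real.log n - Real.log 2) := by
        apply div_le_div_of_nonneg_left (by linarith) (by linarith) h1
    _ = _ := by
        have : Real.log n - Real.log 2 ≠ 0 := by linarith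
        field_simp
        ring

lemma ratio_ok {g : ℚ} (h0 : g ≠ 0) (h1 : g ≠ 1) (h2 : g ≠ -1) :
    2 ≤ max g.num.natAbs g.den := by
  by_contra hcon
  push Not at hcon
  have h3 : g.num.natAbs ≤ 1 := by
    have := lt_of_le_of_lt (le_max_left _ _) hcon
    omega
  have h4 : g.den = 1 := by
    have h5 := lt_of_le_of_lt (le_max_right _ _) hcon
    have h6 := g.den_pos
    omega
  have h5 : (g.num : ℚ) = g := by
    conv_rhs => rw [← Rat.num_div_den g, h4]
    simp
  have h6 : g.num = 0 ∨ g.num = 1 ∨ g.num = -1 := by omega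
  rcases h6 with h6 | h6 | h6
  · rw [h6] at h5; exact h0 (by rw [← h5]; simp)
  · rw [h6] at h5; exact h1 (by rw [← h5]; simp)
  · rw [h6] at h5; exact h2 (by rw [← h5]; simp)

/-- **Structured sets of slopes.** -/
theorem result :
    -- (1) coverings with small cost
    (∀ (m : ℕ) (P : Fin m → Piece), (∀ i, (P i).Ok) → ∀ S : Finset (Option ℚ), some (-1) ∉ S →
      (∀ r ∈ S, ∃ i, height r ∈ (P i).carrier) →
      ∀ κ : ℝ, 0 ≤ κ → κ * (∑ i, (P i).cost - 1) < ∑ i, (P i).cost → ∀ C : ℝ,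
        ∃ A : Finset (ℤ × ℤ), A.Nonempty ∧
          ∀ r ∈ S, C * ((proj r A).card : ℝ) ^ κ < (proj (some (-1)) A).card) ∧
    -- (2) the costs of geometric progressions
    (∀ a b g : ℚ, (Piece.gp a b g 2).cost = 4) ∧
    (∀ (a b g : ℚ) (n : ℕ), 3 ≤ n →
      (Piece.gp a b g n).cost ≤ 2 + 2 * Real.log 2 / (Real.log n - Real.log 2)) ∧
    -- (3) slopes in `m` geometric progressions `-1 ± a g ^ j`, in `l` arithmetic progressions, in a
    -- finite set `F`, and the slope `∞`
    (∀ (m l : ℕ) (a g : Fin m → ℚ) (v c : Fin l → ℚ) (k : Fin l → ℕ) (F : Finset ℚ),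
      (∀ i, g i ≠ 0 ∧ g i ≠ 1 ∧ g i ≠ -1) →
      ∀ S : Finset ℚ, (-1 : ℚ) ∉ S →
      (∀ r ∈ S, r ∈ F ∨
        (∃ (i : Fin m) (j : ℤ), r = -1 + a i * g i ^ j ∨ r = -1 - a i * g i ^ j) ∨
        ∃ (i : Fin l) (n : ℤ), |n| ≤ k i ∧ r = v i + c i * n) →
      ∀ κ : ℝ, 0 ≤ κ →
      κ * (F.card + 4 * m + ∑ i, (16 + 4 * (Real.log (k i + 1) / Real.log 2))) <
        F.card + 4 * m + ∑ i, (16 + 4 * (Real.log (k i + 1) / Real.log 2)) + 1 → ∀ C : ℝ,
        ∃ A : Finset (ℤ × ℤ), A.Nonempty ∧ ∀ r ∈ insertNone S,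
          C * ((proj r A).card : ℝ) ^ κ < (proj (some (-1)) A).card) := by
  refine ⟨fun m P hP S hS hcov κ hκ h C => main (fun i => (P i).carrier) (fun i => (P i).cost)
    (fun i => good_piece (P i) (hP i)) S hS hcov κ hκ h C, cost_two, cost_le, ?_⟩
  intro m l a g v c k F hg S hS hcov κ hκ h C
  set U : (Unit ⊕ F) ⊕ (Fin m ⊕ Fin l) → Set ℚ :=
    Sum.elim (Sum.elim (fun _ => {0}) (fun r => {1 / (1 + r.1)}))
      (Sum.elim (fun i => (Piece.gp 0 (1 / a i) (g i) 2).carrier)
        (fun i => {t : ℚ | ∃ n : ℤ, |n| ≤ k i ∧ (1 + v i) + c i * n ≠ 0 ∧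
          t = 0 + 1 / ((1 + v i) + c i * n)})) with hU
  set cc : (Unit ⊕ F) ⊕ (Fin m ⊕ Fin l) → ℝ :=
    Sum.elim (Sum.elim (fun _ => 1) (fun _ => 1))
      (Sum.elim (fun _ => 4) (fun i => 16 + 4 * (Real.log (k i + 1) / Real.log 2))) with hcc
  have hsum : ∑ i, cc i = F.card + 4 * m +
      ∑ i, (16 + 4 * (Real.log (k i + 1) / Real.log 2)) + 1 := by
    rw [Fintype.sum_sum_type, Fintype.sum_sum_type, Fintype.sum_sum_type]
    simp only [hcc, Sum.elim_inl, Sum.elim_inr, Finset.sum_const, card_univ, nsmul_eq_mul,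
      Fintype.card_coe, Fintype.card_fin, Fintype.card_unit, Nat.cast_one, mul_one]
    ring
  refine main U cc ?_ (insertNone S) (by simp [hS]) ?_ κ hκ (by rw [hsum]; linarith) C
  · rintro ((_ | r) | (i | i))
    · exact good_point 0
    · exact good_point _
    · have h1 := good_piece (Piece.gp 0 (1 / a i) (g i) 2)
        ⟨le_rfl, ratio_ok (hg i).1 (hg i).2.1 (hg i).2.2⟩
      rw [cost_two] at h1
      exact h1
    · exact good_rap 0 (1 + v i) (c i) (k i)
  · intro r hr
    cases r with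
    | none => exact ⟨Sum.inl (Sum.inl ()), rfl⟩
    | some r =>
      have hr' : r ∈ S := some_mem_insertNone.1 hr
      rcases hcov r hr' with h1 | ⟨i, j, h1⟩ | ⟨i, n, hn, h1⟩
      · exact ⟨Sum.inl (Sum.inr ⟨r, h1⟩), rfl⟩
      · refine ⟨Sum.inr (Sum.inl i), -j, ?_⟩
        rcases h1 with h1 | h1
        · left
          simp only [height]
          rw [h1, zpow_neg]
          have : 1 + (-1 + a i * g i ^ j) = a i * g i ^ j := by ring
          rw [this, zero_add, one_div, mul_inv, one_div]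
        · right
          simp only [height]
          rw [h1, zpow_neg]
          have : 1 + (-1 - a i * g i ^ j) = -(a i * g i ^ j) := by ring
          rw [this, zero_sub, one_div, inv_neg, mul_inv, one_div]
      · refine ⟨Sum.inr (Sum.inr i), n, hn, ?_, ?_⟩
        · intro h0
          apply hS
          have : r = -1 := by rw [h1]; linarith
          rw [← this]
          exact hr'
        · simp only [height]
          rw [h1, zero_add, add_assoc]

end Pool.Agent.Results.MP_169869_co.GeometricSlopes
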