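import Pool.Agent.Helper20.PF.Fin

/-!
# Slopes which are a union of few sets without relations

Let `R_1, …, R_m` be sets of at most `k` slopes different from `0` and `-1`, such that no `R_i` satisfies a
relation `a(R_i) = b(R_i) ≠ 0` between integral forms `a`, `b` of degrees `d`, `d + 1` with `d ≤ D` and
coefficients of absolute value `≤ 2 ^ D`, `D ≥ t log t`, `t = 8 (k + 1) / δ`.  We show that the slopes `0`,
`∞` and all the slopes in the sets `R_i` together give no exponent below `1 + 1 / (c m - 1)`,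
`c = (2 - δ) / (1 - δ)`, not even up to a constant.  So the exponent `1 + ε` needs sets of slopes which are
not a union of `1 / (c ε)` sets without relations, whatever the size `k` of these sets is.
-/

set_option autoImplicit false

open Finset
open scoped Classical

namespace Pool.Agent.Results.MP_169869_co.RelationFreeParts

/-- The function `x + r y` (`y` for `r = ∞`). -/
def val : Option ℚ → ℤ × ℤ → ℚ
  | none, z => (z.2 : ℚ)
  | some r, z => (z.1 : ℚ) + r * (z.2 : ℚ)

/-- The projection in direction `r`; `none` stands for `∞`. -/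
noncomputable def proj (r : Option ℚ) (A : Finset (ℤ × ℤ)) : Finset ℚ := A.image (val r)

/-- The value at `r` of the form of degree `d` with the integral coefficients `a e`, where
`e = (e_1, …, e_k)` runs through the exponents of the monomials of degree `d`. -/
def form {k : ℕ} (r : Fin k → ℚ) (d : ℕ) (a : (Fin k → ℕ) → ℤ) : ℚ :=
  ∑ e ∈ Finset.Nat.antidiagonalTuple k d, (a e : ℚ) * ∏ i, r i ^ e i

/-- There is a relation `a(r) = b(r) ≠ 0` between the values of two integral forms `a`, `b` of degrees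
`d`, `d + 1`, with `d ≤ D` and coefficients of absolute value at most `2 ^ D`. -/
def Related {k : ℕ} (D : ℕ) (r : Fin k → ℚ) : Prop :=
  ∃ d ≤ D, ∃ a b : (Fin k → ℕ) → ℤ, (∀ e, |a e| ≤ 2 ^ D) ∧ (∀ e, |b e| ≤ 2 ^ D) ∧
    form r d a = form r (d + 1) b ∧ form r d a ≠ 0

/-- The slopes `0`, `∞` and `r i j`. -/
noncomputable def slopes {m k : ℕ} (r : Fin m → Fin k → ℚ) : Finset (Option ℚ) :=
  {none, some 0} ∪ Finset.univ.image fun p : Fin m × Fin k => some (r p.1 p.2)

theorem result (k m : ℕ) (hk : 0 < k) (hm : 0 < m) (δ : ℝ) (h0 : 0 < δ) (h1 : δ < 1) (D : ℕ)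
    (hD : 8 * (k + 1) / δ * Real.log (8 * (k + 1) / δ) ≤ D)
    (r : Fin m → Fin k → ℚ) (hr : ∀ i j, r i j ≠ 0 ∧ r i j ≠ -1) (hfree : ∀ i, ¬ Related D (r i))
    (κ : ℝ) (hκ : 0 ≤ κ) (h : κ * (m * ((2 - δ) / (1 - δ)) - 1) < m * ((2 - δ) / (1 - δ))) (C : ℝ) :
    ∃ A : Finset (ℤ × ℤ), A.Nonempty ∧
      ∀ s ∈ slopes r, C * ((proj s A).card : ℝ) ^ κ < (proj (some (-1)) A).card := by
  have hgood : ∀ i, Pool.Agent.Helper20.GS.Good (Pool.Agent.Helper20.PF.heights (r i))
      ((2 - δ) / (1 - δ)) := fun i =>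
    Pool.Agent.Helper20.PF.good_free (r i) (fun j => (hr i j).2) h0 h1 fun hE =>
      hfree i (Pool.Agent.Helper29.RE.L2 k hk δ h0 h1.le D hD (r i) (fun j => (hr i j).1) hE)
  have e1 : ∑ _i : Fin m, (2 - δ) / (1 - δ) = m * ((2 - δ) / (1 - δ)) := by
    rw [Finset.sum_const, Finset.card_univ, Fintype.card_fin, nsmul_eq_mul]
  refine Pool.Agent.Helper20.PF.main (fun i => Pool.Agent.Helper20.PF.heights (r i))
    (fun _ => (2 - δ) / (1 - δ)) hgood (slopes r) ?_ ?_ κ hκ (by rw [e1]; exact h) C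
  · intro h2
    unfold slopes at h2
    rw [mem_union, mem_insert, mem_singleton, mem_image] at h2
    rcases h2 with (h2 | h2) | ⟨p, -, h2⟩
    · exact absurd h2 (by simp)
    · rw [Option.some.injEq] at h2
      norm_num at h2
    · rw [Option.some.injEq] at h2
      exact (hr p.1 p.2).2 h2
  · intro s hs
    unfold slopes at hs
    rw [mem_union, mem_insert, mem_singleton, mem_image] at hs
    rcases hs with (rfl | rfl) | ⟨p, -, rfl⟩
    · exact ⟨⟨0, hm⟩, Or.inl rfl⟩
    · refine ⟨⟨0, hm⟩, Or.inr (Or.inl ?_)⟩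
      simp [Pool.Agent.Helper20.PF.height]
    · exact ⟨p.1, Or.inr (Or.inr ⟨p.2, rfl⟩)⟩

end Pool.Agent.Results.MP_169869_co.RelationFreeParts
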