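import Pool.Agent.Helper20.RE.Fin
import Pool.Agent.Helper29.RE.L2

/-!
# Which sets of slopes are better than two slopes?

Let `r_1, …, r_k` be nonzero rational numbers.  The slopes `0, ∞, r_1, …, r_k` have the trivial exponent
`2` (of the two slopes `0` and `∞`).  We show that they have an exponent which is bounded away from `2`
if and only if there is a relation `a(r) = b(r) ≠ 0` of bounded complexity between the values of two
integral forms `a`, `b` of degrees `d` and `d + 1`.

1. A relation gives an exponent smaller than `2`.  Proof: the entropy form of the theorem of Balog,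
   Szemerédi and Gowers (paths of length three, all the sums `x + r_i y` at the same time) gives, after a
   conditioning, independent variables `X`, `Y` such that all sums `X + r_i Y` are small; by Ruzsa's
   triangle inequality the dilates of `X` by all monomials of degree `d` and the dilates of `Y` by all
   monomials of degree `d + 1` are close to each other; the inequality of Kaimanovich and Vershik gives
   the same for `a(r) X` and `b(r) Y`, hence for `a(r) (X - Y)`.
2. Conversely, if there is no relation of degree at most `D` with coefficients at most `2 ^ D`, then the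
   products of two sets of values of forms of degrees `d + 1` and `d` with bounded coefficients, for a
   suitable `d ≤ D`, show that `2 - δ` is not an exponent.
3. For one slope `r_1 = u / v` the deficiency is the inverse of the logarithm of the height, up to
   constants.
-/

set_option autoImplicit false

open Finset
open scoped Classical

namespace Pool.Agent.Results.MP_169869_co.SlopeRelations

/-- The projection `{x + r y}` in direction `r`. -/
def proj (r : ℚ) (A : Finset (ℤ × ℤ)) : Finset ℚ := A.image fun z => (z.1 : ℚ) + r * (z.2 : ℚ)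

/-- The projection `{y}` in direction `∞`. -/
def projInf (A : Finset (ℤ × ℤ)) : Finset ℚ := A.image fun z => (z.2 : ℚ)

/-- The size of the largest projection in the directions `0`, `∞`, `r_i`. -/
def big {k : ℕ} (r : Fin k → ℚ) (A : Finset (ℤ × ℤ)) : ℕ :=
  max (max (proj 0 A).card (projInf A).card) (univ.sup fun i => (proj (r i) A).card)

/-- `κ` is an exponent for the slopes `0`, `∞`, `r_i`. -/
def Exponent {k : ℕ} (r : Fin k → ℚ) (κ : ℝ) : Prop :=
  ∀ A : Finset (ℤ × ℤ), ((proj (-1) A).card : ℝ) ≤ (big r A : ℝ) ^ κ

/-- The value at `r` of the form of degree `d` with the integral coefficients `a e`, where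
`e = (e_1, …, e_k)` runs through the exponents of the monomials of degree `d`. -/
def form {k : ℕ} (r : Fin k → ℚ) (d : ℕ) (a : (Fin k → ℕ) → ℤ) : ℚ :=
  ∑ e ∈ Finset.Nat.antidiagonalTuple k d, (a e : ℚ) * ∏ i, r i ^ e i

/-- The total number of binary digits of the coefficients of the form of degree `d`. -/
def digits {k : ℕ} (d : ℕ) (a : (Fin k → ℕ) → ℤ) : ℕ :=
  ∑ e ∈ Finset.Nat.antidiagonalTuple k d, Nat.size (a e).natAbs

theorem result :
    -- 1. a relation gives an exponent smaller than `2`
    (∀ (k : ℕ) (r : Fin k → ℚ), (∀ i, r i ≠ 0) → ∀ (d : ℕ) (a b : (Fin k → ℕ) → ℤ),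
      form r d a = form r (d + 1) b → form r d a ≠ 0 →
      Exponent r (2 - 1 / (2 + 9 * k * ((d + 8) * (digits d a + digits (d + 1) b))))) ∧
    -- 2. an exponent smaller than `2` gives a relation
    (∀ k : ℕ, 0 < k → ∀ δ : ℝ, 0 < δ → δ ≤ 1 → ∀ D : ℕ,
      8 * (k + 1) / δ * Real.log (8 * (k + 1) / δ) ≤ D →
      ∀ r : Fin k → ℚ, (∀ i, r i ≠ 0) → Exponent r (2 - δ) →
      ∃ d ≤ D, ∃ a b : (Fin k → ℕ) → ℤ, (∀ e, |a e| ≤ 2 ^ D) ∧ (∀ e, |b e| ≤ 2 ^ D) ∧
        form r d a = form r (d + 1) b ∧ form r d a ≠ 0) ∧
    -- 3. three slopes `0`, `∞`, `r`, where `r` has the height `n`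
    (∀ (r : ℚ) (n : ℕ), n = max r.num.natAbs r.den → 2 ≤ n →
      Exponent (fun _ : Fin 1 => r) (2 - 1 / (2 + 144 * Nat.size n)) ∧
      ∀ κ : ℝ, Exponent (fun _ : Fin 1 => r) κ → 2 - 2 * Real.log 2 / Real.log (2 * n) ≤ κ) := by
  refine ⟨fun k r hr d a b h1 h2 => ?_, fun k hk δ h0 h1 D hD r hr h => ?_, ?_⟩
  · have h := Pool.Agent.Helper20.RE.upper r hr d a b h1 h2
    have e : (2 : ℝ) - 1 / (2 + 9 * k * ((d + 8) * (digits d a + digits (d + 1) b))) =
        2 - 1 / (2 + 9 * k * (((d + 8) * (Pool.Agent.Helper20.RE.len d a +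
          Pool.Agent.Helper20.RE.len (d + 1) b) : ℕ) : ℝ)) := by
      push_cast
      rfl
    rw [e]
    exact h
  · exact Pool.Agent.Helper29.RE.L2 k hk δ h0 h1 D hD r hr h
  · rintro r n rfl hn
    have hr : r ≠ 0 := by
      rintro rfl
      simp at hn
    refine ⟨Pool.Agent.Helper20.RE.three_upper r hr, fun κ h => ?_⟩
    have h1 := Pool.Agent.Helper20.RE.three_lower r hn κ h
    exact h1

end Pool.Agent.Results.MP_169869_co.SlopeRelations
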